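import Pool.Agent.U108.ML.K
import Pool.Agent.U108.ML.K2
import Pool.Agent.TH894.SM0

/-!
# Simultaneous Goldbach representations with a common prime, near products of thin families plus arbitrary functions of
fewer coordinates, and near determinants

Let `u_l : I_l → ℤ`, `1 ≤ l ≤ s`, be `s ≥ 2` arbitrary finite families of integers, `|u_l| ≤ N_l`, `N_1 ⋯ N_s = P`, whose
additive energy of some order is minimal up to powers of `log P` (the primes, the powers of a fixed exponent, the values of
a polynomial at integers or at primes, any subset of `[1, N_l]` with at least `N_l / (log P) ^ C` elements, ...). For almost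
all `j ∈ I_1 × ⋯ × I_s`, ALL the even integers `m` close to

  `v(j) = c u_1(j_1) ⋯ u_s(j_s) + R_1(j) + ⋯ + R_s(j)`

(where `R_l` is an ARBITRARY function with integral values which does not depend on the `l`-th coordinate) have the order of
magnitude of the problem, and the asymptotic formula, also for the representations `m = p + q` with `p` in any long
interval; the same near the determinants of the `s × s` matrices whose diagonal entries run through thin families, the
entries off the diagonal being ARBITRARY fixed integers. More generally, for `k` vectors of families, for almost all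
arguments, ALL the vectors `(n_1, …, n_k)` close to the values and ALL the factors `1 ≤ d_i ≤ (log P) ^ D` for which the
system is admissible: the number of the primes `q` in any long interval for which all the `n_i - d_i q` are primes is the
one predicted by Hardy and Littlewood (representations `n_i = p_i + d_i q` with a common prime `q`).

Definitions used from `Pool.Agent.H560R3.GB` (starting files): `C₂`: the twin prime constant `∏_{p > 2} (1 - 1 / (p - 1) ^ 2)`;
`sing m`: the singular series `2 C₂ ∏_{p ∣ m, p > 2} (p - 1) / (p - 2)`.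

Method: the energy theorem for multilinear values (`Pool.Agent.U108.ML.energy`: Cauchy, Schwarz, Hölder, and a mean value of
the divisor function), the passage to all the vectors near the values (`Pool.Agent.U108.ML.near_fam`), and the theorems of
the starting files on Goldbach's problem and on systems of linear forms with constant terms in families of small energy
(`Pool.Agent.R459.near_even`, `Pool.Agent.TH935.TF`, the latter here with negative slopes).
-/

set_option autoImplicit false

namespace Pool.Agent.Results.MP_629a14_nt.CommonSummands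

open Finset Filter Topology
open Pool.Agent.H560R3.GB (sing C₂)

/-- The number of primes `p`, `y₁ < p ≤ y₂`, for which `m - p` is a prime (used for `y₂ ≤ m`; for `y₁ = 0` and
`y₂ = m` this is the number of ordered representations of `m` as a sum of two primes). -/
def R (m y₁ y₂ : ℕ) : ℕ := ((Ioc y₁ y₂).filter (fun p => p.Prime ∧ (m - p).Prime)).card

/-- For all `y₁ < y₂ ≤ m` with `y₂ - y₁ ≥ m / log ^ A m`, the number `R m y₁ y₂` agrees with the prediction
`sing m * (y₂ - y₁) / log ^ 2 m` up to a relative error of at most `ε`, and lies between `(1 - ε) C₂` and `1 + ε`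
times `(y₂ - y₁) m / (φ(m) log ^ 2 m)`. -/
def HoldsOne (ε : ℝ) (A m : ℕ) : Prop :=
  ∀ y₁ y₂ : ℕ, y₁ < y₂ → y₂ ≤ m → (m : ℝ) / Real.log m ^ A ≤ (y₂ : ℝ) - y₁ →
    |(R m y₁ y₂ : ℝ) - sing m * ((y₂ : ℝ) - y₁) / Real.log m ^ 2| ≤ ε * (sing m * ((y₂ : ℝ) - y₁) / Real.log m ^ 2) ∧
    (1 - ε) * C₂ * (((y₂ : ℝ) - y₁) * m / (m.totient * Real.log m ^ 2)) ≤ R m y₁ y₂ ∧
    (R m y₁ y₂ : ℝ) ≤ (1 + ε) * (((y₂ : ℝ) - y₁) * m / (m.totient * Real.log m ^ 2))

/-- the slopes of the `k + 1` linear polynomials `q`, `n i - d i q` -/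
def slopes {k : ℕ} (d : Fin k → ℕ) : Fin (k + 1) → ℤ := Fin.cons 1 (fun i => -(d i : ℤ))

/-- the constant terms of the `k + 1` linear polynomials `q`, `n i - d i q` -/
def constants {k : ℕ} (n : Fin k → ℤ) : Fin (k + 1) → ℤ := Fin.cons 0 n

/-- `n i > 0`, `d i > 0`, the `k + 1` linear polynomials `q`, `n i - d i q` are distinct, and for every prime `p` there is
an integer at which none of the values is divisible by `p`. -/
def Admissible {k : ℕ} (d : Fin k → ℕ) (n : Fin k → ℤ) : Prop :=
  (∀ i, 0 < n i ∧ 0 < d i) ∧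
  (∀ i j, i ≠ j → ¬ (slopes d i = slopes d j ∧ constants n i = constants n j)) ∧
  (∀ p : ℕ, p.Prime → ∃ t : ℤ, ∀ i, ¬ (p : ℤ) ∣ slopes d i * t + constants n i)

/-- the number of the residue classes modulo `p` in which one of the `k + 1` linear polynomials takes values divisible
by `p` -/
def omega {k : ℕ} (d : Fin k → ℕ) (n : Fin k → ℤ) (p : ℕ) : ℕ :=
  ((range p).filter (fun t : ℕ => ∃ i, (p : ℤ) ∣ slopes d i * (t : ℤ) + constants n i)).card

/-- the product over the primes `p ≤ z` of the factors `(1 - ω(p) / p) / (1 - 1 / p) ^ (k + 1)` -/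
noncomputable def eulerProd {k : ℕ} (d : Fin k → ℕ) (n : Fin k → ℤ) (z : ℕ) : ℝ :=
  ∏ p ∈ (Icc 1 z).filter Nat.Prime, (1 - (omega d n p : ℝ) / p) / (1 - 1 / (p : ℝ)) ^ (k + 1)

/-- the number of the primes `q` with `y₁ < q ≤ y₂` such that all `n i - d i q` are primes -/
noncomputable def count {k : ℕ} (d : Fin k → ℕ) (n : Fin k → ℤ) (y₁ y₂ : ℕ) : ℕ :=
  ((Ioc y₁ y₂).filter (fun q : ℕ => q.Prime ∧ ∀ i, (n i - (d i : ℤ) * q).toNat.Prime)).card

/-- The product of the Hardy-Littlewood factors over all primes converges to a number `c > 0`, and for all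
`y₁ < y₂ ≤ B P` with `y₂ - y₁ ≥ P / (log P) ^ A` and `n i - d i q > 0` for `y₁ < q ≤ y₂`, the number of the primes `q` with
`y₁ < q ≤ y₂` such that all `n i - d i q` are primes is `c (y₂ - y₁) / (log P) ^ (k + 1)`, up to a relative error of at
most `ε`. -/
def Formula (ε : ℝ) (A B P : ℕ) {k : ℕ} (d : Fin k → ℕ) (n : Fin k → ℤ) : Prop :=
  ∃ c : ℝ, 0 < c ∧ Tendsto (eulerProd d n) atTop (𝓝 c) ∧
    ∀ y₁ y₂ : ℕ, y₁ < y₂ → y₂ ≤ B * P → (P : ℝ) / Real.log P ^ A ≤ (y₂ : ℝ) - y₁ →
      (∀ q ∈ Ioc y₁ y₂, ∀ i, 0 < n i - (d i : ℤ) * q) →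
      |(count d n y₁ y₂ : ℝ) - c * ((y₂ : ℝ) - y₁) / Real.log P ^ (k + 1)| ≤
        ε * (c * ((y₂ : ℝ) - y₁) / Real.log P ^ (k + 1))

/-- `Formula` holds for all factors `d i ≤ (log P) ^ D` such that the system `q`, `n i - d i q` is admissible. -/
def Holds (ε : ℝ) (A B D P : ℕ) {k : ℕ} (n : Fin k → ℤ) : Prop :=
  ∀ d : Fin k → ℕ, (∀ i, (d i : ℝ) ≤ Real.log P ^ D) → Admissible d n → Formula ε A B P d n

/-- The additive energy of order `h` of a finite family `u`: the number of the solutions of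
`u(x_1) + ⋯ + u(x_h) = u(y_1) + ⋯ + u(y_h)`. -/
noncomputable def energy (h : ℕ) {ι : Type} [Fintype ι] (u : ι → ℤ) : ℕ :=
  Nat.card {q : (Fin h → ι) × (Fin h → ι) // ∑ j, u (q.1 j) = ∑ j, u (q.2 j)}

/-- `u` is a finite family of integers in `[-N, N]`, and its energy of order `h` is at most `(log P) ^ C` times
`(number of the elements) ^ (2 h) / N`. -/
def Thin (h C P N : ℕ) {ι : Type} [Fintype ι] (u : ι → ℤ) : Prop :=
  (∀ i, |u i| ≤ N) ∧ (energy h u : ℝ) * N ≤ Real.log P ^ C * (Fintype.card ι : ℝ) ^ (2 * h)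

/-- `v(j) = c ∏ u_l(j_l) + ∑ R_l(j)` with an integer `c`, `0 < |c| ≤ (log P) ^ B`, and ARBITRARY functions `R_l` with
integral values such that `R_l` does not depend on the `l`-th coordinate; or `v(j)` is the determinant of the matrix with
the diagonal entries `u_l(j_l)` and with fixed integral entries off the diagonal. -/
def Multilinear (B P : ℕ) {s : ℕ} {I : Fin s → Type} (u : ∀ l, I l → ℤ) (v : (∀ l, I l) → ℤ) : Prop :=
  (∃ (c : ℤ) (R : Fin s → (∀ l, I l) → ℤ), c ≠ 0 ∧ |(c : ℝ)| ≤ Real.log P ^ B ∧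
    (∀ l j x, R l (Function.update j l x) = R l j) ∧ ∀ j, v j = c * ∏ l, u l (j l) + ∑ l, R l j) ∨
  (∃ M : Matrix (Fin s) (Fin s) ℤ, ∀ j, v j = (Matrix.of fun a b => if a = b then u a (j a) else M a b).det)

lemma C₂_nonneg : 0 ≤ C₂ := by
  unfold C₂
  apply Real.iInf_nonneg
  intro z
  apply prod_nonneg
  intro p hp
  rw [mem_filter, mem_Icc] at hp
  exact (Pool.Agent.TH894.SM.fac_pos p hp.1.1).le

lemma holdsOne_of (ε : ℝ) (A : ℕ) (hε : 0 < ε) (m : ℕ) (hm : 3 ≤ m) (h2 : 2 ∣ m)
    (h : Pool.Agent.W93.PG.WinP ε A m) : HoldsOne ε A m := by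
  intro y₁ y₂ h12 hy hlen
  have h1 := h y₁ y₂ h12 hy hlen
  have e0 : Pool.Agent.W93.PG.cnt m y₁ y₂ = R m y₁ y₂ := rfl
  rw [e0] at h1
  refine ⟨h1, ?_⟩
  have hn0 : m ≠ 0 := by omega
  have hnr : (0 : ℝ) < m := by exact_mod_cast Nat.pos_of_ne_zero hn0
  have hl : 0 < Real.log m := Real.log_pos (by exact_mod_cast (by omega : 1 < m))
  have ht : (0 : ℝ) < m.totient := by exact_mod_cast Nat.totient_pos.2 (Nat.pos_of_ne_zero hn0)
  obtain ⟨s1, s2⟩ := Pool.Agent.TH894.SM.sing_tot m hn0 h2
  have hC := C₂_nonneg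
  have hy' : (y₁ : ℝ) < y₂ := by exact_mod_cast h12
  obtain ⟨Q, hQ⟩ : ∃ Q : ℝ, Q = ((y₂ : ℝ) - y₁) / Real.log m ^ 2 := ⟨_, rfl⟩
  have hQ0 : 0 < Q := by
    rw [hQ]
    apply div_pos (by linarith) (by positivity)
  have e : ((y₂ : ℝ) - y₁) * m / (m.totient * Real.log m ^ 2) = m / m.totient * Q := by
    rw [hQ]
    field_simp
  have hHL : sing m * ((y₂ : ℝ) - y₁) / Real.log m ^ 2 = sing m * Q := by
    rw [hQ]
    ring
  rw [hHL, abs_le] at h1
  rw [e]
  constructor
  · rcases le_or_gt ε 1 with hε1 | hε1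
    · have h3 : (1 - ε) * (C₂ * (m / m.totient) * Q) ≤ (1 - ε) * (sing m * Q) := by
        apply mul_le_mul_of_nonneg_left _ (by linarith)
        exact mul_le_mul_of_nonneg_right s1 hQ0.le
      have e2 : (1 - ε) * C₂ * (m / m.totient * Q) = (1 - ε) * (C₂ * (m / m.totient) * Q) := by ring
      rw [e2]
      linarith [h1.1]
    · have h3 : (1 - ε) * C₂ * (m / m.totient * Q) ≤ 0 := by
        apply mul_nonpos_of_nonpos_of_nonneg _ (by positivity)
        exact mul_nonpos_of_nonpos_of_nonneg (by linarith) hC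
      exact h3.trans (Nat.cast_nonneg _)
  · have h3 : (1 + ε) * (sing m * Q) ≤ (1 + ε) * (m / m.totient * Q) := by
      apply mul_le_mul_of_nonneg_left _ (by linarith)
      exact mul_le_mul_of_nonneg_right s2 hQ0.le
    linarith [h1.2]

open Pool.Agent.TH935.TF

lemma holds_of (ε : ℝ) (A B D P : ℕ) {k : ℕ} (b : Fin k → ℤ) (h : HW consA consB ε A B D P b) :
    Holds ε A B D P b := by
  classical
  intro a ha hadm
  obtain ⟨h1, h2, h3⟩ := hadm
  have eA : consA (fun i => -(a i : ℤ)) = slopes a := rfl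
  have eB : consB b = constants b := rfl
  have hadm' : Adm (consA (fun i => -(a i : ℤ))) (consB b) := by
    rw [eA, eB]
    exact h3
  have hdist : Dist (consA (fun i => -(a i : ℤ))) (consB b) := by
    rw [eA, eB]
    intro i j hij
    refine ⟨h2 i j hij, ?_⟩
    rintro ⟨g1, g2⟩
    revert g1 g2 hij
    refine Fin.cases ?_ (fun i => ?_) i
    · refine Fin.cases ?_ (fun j => ?_) j
      · intro hij
        exact absurd rfl hij
      · intro _ _ g2
        have e : constants b 0 = 0 := rfl
        have e2 : constants b j.succ = b j := rfl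
        rw [e, e2] at g2
        have := (h1 j).1
        omega
    · refine Fin.cases ?_ (fun j => ?_) j
      · intro _ _ g2
        have e : constants b 0 = 0 := rfl
        have e2 : constants b i.succ = b i := rfl
        rw [e, e2] at g2
        have := (h1 i).1
        omega
      · intro _ g1 g2
        have e1 : slopes a i.succ = -(a i : ℤ) := rfl
        have e2 : slopes a j.succ = -(a j : ℤ) := rfl
        rw [e1, e2] at g1
        have := (h1 i).2
        have := (h1 j).2
        omega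
  obtain ⟨S, hS0, hSt, hS⟩ := h (fun i => -(a i : ℤ)) (fun i => by have := (h1 i).2; omega)
    (fun i => by simpa using ha i) hadm' hdist
  refine ⟨S, hS0, ?_, fun y₁ y₂ hy hy2 hlen hwin => ?_⟩
  · exact hSt
  · have h4 := hS y₁ y₂ hy.le hy2 hlen
    have e : cn (consA (fun i => -(a i : ℤ))) (consB b) y₁ y₂ = count a b y₁ y₂ := by
      unfold cn count
      congr 1
      apply filter_congr
      intro n hn
      have hw := hwin n hn
      rw [Fin.forall_fin_succ, consA_zero, consB_zero]
      have e1 : ((1 : ℤ) * (n : ℤ) + 0).natAbs = n := by simp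
      rw [e1]
      have e2 : ∀ i, (-(a i : ℤ) * (n : ℤ) + b i).natAbs = (b i - (a i : ℤ) * n).toNat := by
        intro i
        have h5 := hw i
        have h6 : -(a i : ℤ) * (n : ℤ) + b i = b i - (a i : ℤ) * n := by ring
        rw [h6]
        omega
      constructor
      · rintro ⟨g1, g2⟩
        refine ⟨g1, fun i => ?_⟩
        have g3 := g2 i
        rw [consA_succ, consB_succ, e2] at g3
        exact g3
      · rintro ⟨g1, g2⟩
        refine ⟨g1, fun i => ?_⟩
        have g3 := g2 i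
        rw [consA_succ, consB_succ, e2]
        exact g3
    rw [e] at h4
    exact h4

lemma formula_mono {ε : ℝ} {A B P k : ℕ} {d : Fin k → ℕ} {a : Fin k → ℤ} (h : Formula ε A (B + 1) P d a) :
    Formula ε A B P d a := by
  obtain ⟨c, hc, ht, h1⟩ := h
  refine ⟨c, hc, ht, fun y₁ y₂ hy hy2 => h1 y₁ y₂ hy (hy2.trans ?_)⟩
  exact Nat.mul_le_mul_right _ (by omega)

lemma holds_mono {ε : ℝ} {A B D P k : ℕ} {a : Fin k → ℤ} (h : Holds ε A (B + 1) D P a) : Holds ε A B D P a :=
  fun d hd hadm => formula_mono (h d hd hadm)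

lemma crit (k : ℕ) (hk : 1 ≤ k) (A B D : ℕ) (ε : ℝ) (hε : 0 < ε) :
    Pool.Agent.U108.ML.CritB B (fun P (a : Fin k → ℤ) => Holds ε A B D P a) := by
  intro h C U
  obtain ⟨N₀, h1⟩ := fam_sys (sys_lam k hk) hk h A B C D U ε hε
  exact ⟨N₀, fun N hN x s hs hE T hT hTb => h1 N hN x s hs hE T hT fun q hq hG => hTb q hq (holds_of ε A B D N _ hG)⟩

/-- every multilinear value is a product plus functions of fewer coordinates -/
lemma shape {B P s : ℕ} (hs : 1 ≤ s) (hP : 1 ≤ Real.log P) {I : Fin s → Type} {u : ∀ l, I l → ℤ} {v : (∀ l, I l) → ℤ}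
    (h : Multilinear B P u v) : ∃ (c : ℤ) (R : Fin s → (∀ l, I l) → ℤ), c ≠ 0 ∧ |(c : ℝ)| ≤ Real.log P ^ B ∧
    (∀ l j x, R l (Function.update j l x) = R l j) ∧ ∀ j, v j = c * ∏ l, u l (j l) + ∑ l, R l j := by
  rcases h with h | ⟨M, hM⟩
  · exact h
  · obtain ⟨R, hR1, hR2⟩ := Pool.Agent.U108.ML.det_withDiag hs M
    refine ⟨1, fun k i => R k (fun k => u k (i k)), one_ne_zero, ?_, ?_, ?_⟩
    · rw [Int.cast_one, abs_one]
      exact one_le_pow₀ hP
    · intro k i x
      have h2 : (fun l => u l (Function.update i k x l)) = Function.update (fun l => u l (i l)) k (u k x) := by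
        funext l
        by_cases hl : l = k
        · subst hl
          rw [Function.update_self, Function.update_self]
        · rw [Function.update_of_ne hl, Function.update_of_ne hl]
      simp only
      rw [h2, hR1]
    · intro i
      rw [hM i, one_mul]
      exact hR2 (fun k => u k (i k))

open Classical in
/-- **Simultaneous Goldbach representations near multilinear values of thin families.** Let `h ≥ 1`, `s ≥ 2`, `m`, `A`,
`B`, `C`, `D`, `W`, `U` and `ε > 0` be given.

1. Let `P` be sufficiently large, `P = N_1 ⋯ N_s` with `N_l ^ m ≥ P`, let `u_l : I_l → ℤ` be finite families with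
`Thin h C P N_l`, and let `v` be a function on `∏_l I_l` with `Multilinear B P u v` and `|v| ≤ B P`. For all but at most the
share `(log P) ^ (-U)` of the `j ∈ ∏_l I_l`, ALL the even integers `n > 0` with `|n - v(j)| ≤ (log P) ^ W` have the property
`HoldsOne ε A n`: for all `y₁ < y₂ ≤ n` with `y₂ - y₁ ≥ n / (log n) ^ A`, the number of the representations `n = p + q` with
primes `p`, `q` and `y₁ < p ≤ y₂` agrees with the prediction of Hardy and Littlewood up to a relative error of at most `ε`,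
and lies between `(1 - ε) C₂` and `1 + ε` times `(y₂ - y₁) n / (φ(n) (log n) ^ 2)`.

2. Let `k ≥ 1` and let `P` be sufficiently large. Let `P = N_(i,1) ⋯ N_(i,s)` with `N_(i,l) ^ m ≥ P` for `1 ≤ i ≤ k`, let
`u_(i,l) : I_(i,l) → ℤ` be finite families with `Thin h C P N_(i,l)`, and let `v_i` be functions on `∏_l I_(i,l)` with
`Multilinear B P u_i v_i` and `|v_i| ≤ B P`. For all but at most the share `(log P) ^ (-U)` of the vectors `x`,
`x_i ∈ ∏_l I_(i,l)`, ALL the integer vectors `n` with `|n_i - v_i(x_i)| ≤ (log P) ^ W` have the property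
`Holds ε A B D P n`: for all factors `1 ≤ d_i ≤ (log P) ^ D` for which the system `q`, `n_i - d_i q` is admissible there is
the expected number of simultaneous representations `n_i = p_i + d_i q` with primes `p_1, …, p_k` and a common prime `q`
in all long intervals. -/
theorem result (h s m A B C D W U : ℕ) (hh : 1 ≤ h) (hs : 2 ≤ s) (ε : ℝ) (hε : 0 < ε) :
    (∃ P₀ : ℕ, ∀ (P : ℕ) (N : Fin s → ℕ), P₀ ≤ P → ∏ l, N l = P → (∀ l, P ≤ N l ^ m) →
      ∀ (I : Fin s → Type) [∀ l, Fintype (I l)] (u : ∀ l, I l → ℤ), (∀ l, Thin h C P (N l) (u l)) →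
      ∀ v : (∀ l, I l) → ℤ, Multilinear B P u v → (∀ j, |v j| ≤ B * P) →
      (((univ : Finset (∀ l, I l)).filter (fun j => ¬ ∀ n : ℕ, 0 < n → Even n →
        |(n : ℝ) - v j| ≤ Real.log P ^ W → HoldsOne ε A n)).card : ℝ) ≤
          (∏ l, (Fintype.card (I l) : ℝ)) / Real.log P ^ U) ∧
    (∀ k : ℕ, 1 ≤ k → ∃ P₀ : ℕ, ∀ (P : ℕ) (N : Fin k → Fin s → ℕ), P₀ ≤ P → (∀ i, ∏ l, N i l = P) →
      (∀ i l, P ≤ N i l ^ m) →
      ∀ (I : Fin k → Fin s → Type) [∀ i l, Fintype (I i l)] (u : ∀ i l, I i l → ℤ), (∀ i l, Thin h C P (N i l) (u i l)) →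
      ∀ v : ∀ i, (∀ l, I i l) → ℤ, (∀ i, Multilinear B P (u i) (v i)) → (∀ i j, |v i j| ≤ B * P) →
      (((univ : Finset (∀ i, ∀ l, I i l)).filter (fun x => ¬ ∀ n : Fin k → ℤ,
        (∀ i, |(n i : ℝ) - v i (x i)| ≤ Real.log P ^ W) → Holds ε A B D P n)).card : ℝ) ≤
        (∏ i, ∏ l, (Fintype.card (I i l) : ℝ)) / Real.log P ^ U) := by
  obtain ⟨r, rfl⟩ : ∃ r, s = r + 2 := ⟨s - 2, by omega⟩
  have hlog : ∀ P : ℕ, 3 ≤ P → (1 : ℝ) ≤ Real.log P := by
    intro P hP
    rw [Real.le_log_iff_exp_le (by exact_mod_cast (by omega : 0 < P))]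
    have h3 : (3 : ℝ) ≤ P := by exact_mod_cast hP
    have := Real.exp_one_lt_d9
    linarith
  have hN : ∀ (P : ℕ) (N : Fin (r + 2) → ℕ), 3 ≤ P → ∏ l, N l = P → (∀ l, P ≤ N l ^ m) → ∀ l, P ≤ N l ^ (m + 2) := by
    intro P N hP hNP hNm l
    have hN0 : 0 < N l := by
      rcases Nat.eq_zero_or_pos (N l) with h0 | h0
      · have h2 : ∏ l, N l = 0 := prod_eq_zero (mem_univ l) h0
        omega
      · exact h0
    exact (hNm l).trans (Nat.pow_le_pow_right hN0 (by omega))
  constructor
  · obtain ⟨P₁, h1⟩ := Pool.Agent.U108.ML.near_even_prod h r (m + 2) A (B + 1) C W U 3 hh (by omega) ε hε (HoldsOne ε A)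
      (fun n hn h2 hw => holdsOne_of ε A hε n hn h2 hw)
    have htend : Filter.Tendsto (fun n : ℕ => Real.log (n : ℝ)) Filter.atTop Filter.atTop :=
      Real.tendsto_log_atTop.comp tendsto_natCast_atTop_atTop
    obtain ⟨P₂, hP₂⟩ := Filter.eventually_atTop.1 (htend.eventually_ge_atTop ((B : ℝ) + 1))
    refine ⟨P₁ + P₂ + 3, ?_⟩
    intro P N hP hNP hNm I _ u hu v hv hvb
    have hlP := hlog P (by omega)
    have hlB := hP₂ P (by omega)
    obtain ⟨c, R, hc0, hcB, hR, hcR⟩ := shape (by omega : 1 ≤ r + 2) hlP hv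
    have hpow : Real.log P ^ B ≤ Real.log P ^ (B + 1) := pow_le_pow_right₀ hlP (by omega)
    have hBle : (B : ℝ) ≤ Real.log P ^ (B + 1) := by
      calc (B : ℝ) ≤ Real.log P := by linarith
        _ = Real.log P ^ 1 := (pow_one _).symm
        _ ≤ _ := pow_le_pow_right₀ hlP (by omega)
    have key := h1 N P (by omega) hNP (hN P N (by omega) hNP hNm) I u (fun l => (hu l).1) (fun l => (hu l).2) c hc0
      (hcB.trans hpow) R hR (by
        intro i
        rw [← hcR i]
        have h4 : v i ≤ B * P := (le_abs_self _).trans (hvb i)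
        have h5 : (v i : ℝ) ≤ B * P := by exact_mod_cast h4
        exact h5.trans (mul_le_mul_of_nonneg_right hBle (Nat.cast_nonneg _)))
      (univ.filter (fun j => ¬ ∀ n : ℕ, 0 < n → Even n → |(n : ℝ) - v j| ≤ Real.log P ^ W → HoldsOne ε A n)) (by
        intro j hj
        have h4 := (mem_filter.1 hj).2
        push Not at h4
        obtain ⟨n, hn0, hn1, hn2, hn3⟩ := h4
        refine ⟨n, hn0, hn1, ?_, hn3⟩
        rw [← hcR j]
        push_cast
        exact hn2)
    refine key.trans (le_of_eq ?_)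
    congr 1
    rw [Fintype.card_pi]
    push_cast
    rfl
  · intro k hk
    obtain ⟨P₁, h1⟩ := Pool.Agent.U108.ML.near_fam r h (m + 2) B C W U hh (by omega)
      (fun N (a : Fin k → ℤ) => Holds ε A (B + 1) D N a) (crit k hk A (B + 1) D ε hε)
    refine ⟨P₁ + 3, ?_⟩
    intro P N hP hNP hNm I _ u hu v hv hvb
    have hlP := hlog P (by omega)
    choose c R hc0 hcB hR hcR using fun i => shape (by omega : 1 ≤ r + 2) hlP (hv i)
    have key := h1 P N (by omega) hNP (fun i => hN P (N i) (by omega) (hNP i) (hNm i)) I u (fun i l => (hu i l).1)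
      (fun i l => (hu i l).2) c hc0 hcB R hR v hcR hvb
      (univ.filter (fun q => ¬ ∀ a : Fin k → ℤ, (∀ i, |(a i : ℝ) - v i (q i)| ≤ Real.log P ^ W) → Holds ε A B D P a))
      (by
        intro q hq
        have h4 := (mem_filter.1 hq).2
        push Not at h4
        obtain ⟨a, ha1, ha2⟩ := h4
        exact ⟨a, ha1, fun h5 => ha2 (holds_mono h5)⟩)
    refine key.trans (le_of_eq ?_)
    congr 1
    apply prod_congr rfl
    intro i _
    rw [Fintype.card_pi]
    push_cast
    rfl

end Pool.Agent.Results.MP_629a14_nt.CommonSummands
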