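import Mathlib
import Pool.Agent.U464.PD.Gold

/-!
# Every even `n`: sums of two almost primes, one of them with prescribed leading digits and restricted last digits

Q1 asks whether the number of the representations of an even number `n` as a sum of two primes has the order of
magnitude `n ^ 2 / (φ(n) log ^ 2 n)`. Here one summand `m` has, in base `b`, prescribed leading digits (it lies in the
interval `[b ^ K t, b ^ K (t + 1))`, where `b ^ K` may be as small as any fixed power of `n`), and its `K` last digits
are restricted: the `i`-th digit belongs to `A i`, where the sets `A i` are arbitrary, only the product of the `|A i|`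
is at least `exp (- c K) b ^ K`. For EVERY even `n`, without exceptions and uniformly in `n`, in the leading digits
and in the sets `A i`, the number of these `m` for which `m` and `n - m` have no prime factor up to `b ^ (K / r)` is at
most a constant times `(∏ |A i|) n / (φ(n) log ^ 2 n)`; this includes all pairs of primes larger than `b ^ (K / r)`.
And if there is no local obstruction at the primes dividing `b`, then at least a constant times as many of these `m`
are such that moreover `m (n - m)` has at most `r` prime factors.

Proof: the local product is computed in `Pool/Agent/U464/PD/Gold.lean`; the sieve for integers with restricted digits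
is `Pool.Agent.Y816.PD.uni_fun` of the starting library (there used only for tuples, MP_40574a_nt).
-/

set_option autoImplicit false

namespace Pool.Agent.Results.MP_629a14_nt.DigitSummands

open Finset Filter

/-- The `m` in `[b ^ K t, b ^ K (t + 1))` whose `i`-th digit in base `b` (the digit of the units for `i = 0`) belongs
to `A i` for all `i < K`, and such that all prime factors of `m (n - m)` are larger than `b ^ (K / r)`. -/
def Rough (n b K t r : ℕ) (A : ℕ → Finset ℕ) : Set ℕ :=
  {m | b ^ K * t ≤ m ∧ m < b ^ K * (t + 1) ∧ (∀ i < K, m / b ^ i % b ∈ A i) ∧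
    ∀ q : ℕ, q.Prime → q ∣ m * (n - m) → b ^ K < q ^ r}

/-- The elements `m` of `Rough` for which `m (n - m)` has at most `r` prime factors, counted with multiplicity. -/
def AlmostPrime (n b K t r : ℕ) (A : ℕ → Finset ℕ) : Set ℕ :=
  {m | m ∈ Rough n b K t r A ∧ (m * (n - m)).primeFactorsList.length ≤ r}

/-- **Sums of two almost primes, one of them with prescribed leading digits and restricted last digits.** -/
theorem result (D : ℕ) :
    ∃ c : ℝ, 0 < c ∧ ∃ r₀ : ℕ, 2 ≤ r₀ ∧ ∀ r : ℕ, r₀ ≤ r → ∀ b : ℕ, 2 ≤ b → ∃ κ C : ℝ, 0 < κ ∧ 0 < C ∧
      ∀ᶠ K : ℕ in atTop, ∀ n t : ℕ, Even n → n ≤ b ^ (D * K) → b ^ K * (t + 1) ≤ n →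
        ∀ A : ℕ → Finset ℕ, (∀ i < K, A i ⊆ range b) →
          (b : ℝ) ^ K ≤ Real.exp (c * K) * ∏ i ∈ range K, ((A i).card : ℝ) →
          ((∃ d ∈ A 0, d.Coprime b ∧ (n - d).Coprime b) →
            κ * (∏ i ∈ range K, ((A i).card : ℝ)) * (n / (n.totient * Real.log n ^ 2)) ≤
              ((AlmostPrime n b K t r A).ncard : ℝ)) ∧
          ((Rough n b K t r A).ncard : ℝ) ≤
            C * (∏ i ∈ range K, ((A i).card : ℝ)) * (n / (n.totient * Real.log n ^ 2)) :=
  Pool.Agent.U464.PD.gold D

end Pool.Agent.Results.MP_629a14_nt.DigitSummands
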