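import Pool.Agent.U828.KD.Even
import Pool.Agent.TH894.SM0

/-!
# The order of magnitude of the binary Goldbach representation numbers of all the even integers near almost all the values
# of an arbitrary function of higher convexity

Let `f` be ANY function on `{1, …, x}`, `x ≥ N ^ (1 / r + η)` (`r ≥ 2`), with values in `[-B N, B N]`, whose differences of
order `r` are all at least `N / (x ^ r (log N) ^ C)`, or all at most the negative of this number. For all but at most
`x / (log N) ^ U` of the `n ≤ x` the assertion of the problem, the asymptotic formula of Hardy and Littlewood, and the same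
for all long windows, hold for ALL the even integers `m > 0` at a distance of at most `(log N) ^ C` from `f(n)`.

For `r = 2` these are the strictly convex (or concave) functions. For larger `r` there are only `N ^ (1 / r + η)` points:
the even integers run through neighbourhoods of arbitrarily sparse sets; no regularity is assumed besides the sign and the
size of the `r`-th differences. The earlier results of this problem on thin sets treat consecutive primes and polynomials
at integers with restricted digits.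

Definitions used from `Pool.Agent.H560R3.GB` (starting files): `C₂`: the twin prime constant
`∏_{p > 2} (1 - 1 / (p - 1) ^ 2)`; `sing m`: the singular series `2 C₂ ∏_{p ∣ m, p > 2} (p - 1) / (p - 2)`.

Proof: the energy theorem `Pool.Agent.U828.KD.energy_r` (helper828: an `r`-th derivative test for arbitrary sequences, and
Fejér kernels), the passage to all the integers near the values (helper828), and the theorem of the starting files on
Goldbach's problem in windows for thin families of small energy (`Pool.Agent.TH935.GF`).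
-/

set_option autoImplicit false

namespace Pool.Agent.Results.MP_629a14_nt.HigherConvexFunctions

open Finset
open Pool.Agent.H560R3.GB (sing C₂)

/-- The number of primes `p`, `y₁ < p ≤ y₂`, for which `m - p` is a prime (used for `y₂ ≤ m`; for `y₁ = 0` and
`y₂ = m` this is the number of ordered representations of `m` as a sum of two primes). -/
def R (m y₁ y₂ : ℕ) : ℕ := ((Ioc y₁ y₂).filter (fun p => p.Prime ∧ (m - p).Prime)).card

/-- For all `y₁ < y₂ ≤ m` with `y₂ - y₁ ≥ m / log ^ A m`, the number `R m y₁ y₂` agrees with the prediction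
`sing m * (y₂ - y₁) / log ^ 2 m` up to a relative error of at most `ε`, and lies between `(1 - ε) C₂` and `1 + ε`
times `(y₂ - y₁) m / (φ(m) log ^ 2 m)`. -/
def Holds (ε : ℝ) (A m : ℕ) : Prop :=
  ∀ y₁ y₂ : ℕ, y₁ < y₂ → y₂ ≤ m → (m : ℝ) / Real.log m ^ A ≤ (y₂ : ℝ) - y₁ →
    |(R m y₁ y₂ : ℝ) - sing m * ((y₂ : ℝ) - y₁) / Real.log m ^ 2| ≤ ε * (sing m * ((y₂ : ℝ) - y₁) / Real.log m ^ 2) ∧
    (1 - ε) * C₂ * (((y₂ : ℝ) - y₁) * m / (m.totient * Real.log m ^ 2)) ≤ R m y₁ y₂ ∧
    (R m y₁ y₂ : ℝ) ≤ (1 + ε) * (((y₂ : ℝ) - y₁) * m / (m.totient * Real.log m ^ 2))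

/-- The differences of order `r` of `f` on `{1, ..., x}` are all at least `κ`, or all at most `-κ`. Here `fwdDiff 1 f m`
is the difference `f (m + 1) - f m`. -/
def Bent (r x : ℕ) (f : ℕ → ℝ) (κ : ℝ) : Prop :=
  (∀ m, 1 ≤ m → m + r ≤ x → κ ≤ (fwdDiff 1)^[r] f m) ∨ (∀ m, 1 ≤ m → m + r ≤ x → (fwdDiff 1)^[r] f m ≤ -κ)

open Classical in
/-- The number of the `n ≤ x` for which `Holds` fails for some even integer `m > 0` at a distance of at most
`(log N) ^ C` from `f n`. -/
noncomputable def exceptions (f : ℕ → ℝ) (ε : ℝ) (A C N x : ℕ) : ℕ :=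
  ((Icc 1 x).filter (fun n => ∃ m : ℕ, 0 < m ∧ Even m ∧ |(m : ℝ) - f n| ≤ Real.log N ^ C ∧ ¬ Holds ε A m)).card

lemma C₂_nonneg : 0 ≤ C₂ := by
  unfold C₂
  apply Real.iInf_nonneg
  intro z
  apply prod_nonneg
  intro p hp
  rw [mem_filter, mem_Icc] at hp
  exact (Pool.Agent.TH894.SM.fac_pos p hp.1.1).le

lemma holds_of (ε : ℝ) (A : ℕ) (hε : 0 < ε) (m : ℕ) (hm : 3 ≤ m) (h2 : 2 ∣ m)
    (h : Pool.Agent.W93.PG.WinP ε A m) : Holds ε A m := by
  intro y₁ y₂ h12 hy hlen
  have h1 := h y₁ y₂ h12 hy hlen
  have e0 : Pool.Agent.W93.PG.cnt m y₁ y₂ = R m y₁ y₂ := rfl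
  rw [e0] at h1
  refine ⟨h1, ?_⟩
  have hn0 : m ≠ 0 := by omega
  have hnr : (0 : ℝ) < m := by exact_mod_cast Nat.pos_of_ne_zero hn0
  have hl : 0 < Real.log m := Real.log_pos (by exact_mod_cast (by omega : 1 < m))
  have ht : (0 : ℝ) < m.totient := by exact_mod_cast Nat.totient_pos.2 (Nat.pos_of_ne_zero hn0)
  obtain ⟨s1, s2⟩ := Pool.Agent.TH894.SM.sing_tot m hn0 h2
  have hC := C₂_nonneg
  have hy' : (y₁ : ℝ) < y₂ := by exact_mod_cast h12
  obtain ⟨Q, hQ⟩ : ∃ Q : ℝ, Q = ((y₂ : ℝ) - y₁) / Real.log m ^ 2 := ⟨_, rfl⟩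
  have hQ0 : 0 < Q := by
    rw [hQ]
    apply div_pos (by linarith) (by positivity)
  have e : ((y₂ : ℝ) - y₁) * m / (m.totient * Real.log m ^ 2) = m / m.totient * Q := by
    rw [hQ]
    field_simp
  have hHL : sing m * ((y₂ : ℝ) - y₁) / Real.log m ^ 2 = sing m * Q := by
    rw [hQ]
    ring
  rw [hHL, abs_le] at h1
  rw [e]
  constructor
  · rcases le_or_gt ε 1 with hε1 | hε1
    · have h3 : (1 - ε) * (C₂ * (m / m.totient) * Q) ≤ (1 - ε) * (sing m * Q) := by
        apply mul_le_mul_of_nonneg_left _ (by linarith)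
        exact mul_le_mul_of_nonneg_right s1 hQ0.le
      have e2 : (1 - ε) * C₂ * (m / m.totient * Q) = (1 - ε) * (C₂ * (m / m.totient) * Q) := by ring
      rw [e2]
      linarith [h1.1]
    · have h3 : (1 - ε) * C₂ * (m / m.totient * Q) ≤ 0 := by
        apply mul_nonpos_of_nonpos_of_nonneg _ (by positivity)
        exact mul_nonpos_of_nonpos_of_nonneg (by linarith) hC
      exact h3.trans (Nat.cast_nonneg _)
  · have h3 : (1 + ε) * (sing m * Q) ≤ (1 + ε) * (m / m.totient * Q) := by
      apply mul_le_mul_of_nonneg_left _ (by linarith)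
      exact mul_le_mul_of_nonneg_right s2 hQ0.le
    linarith [h1.2]

/-- **The order of the binary Goldbach numbers near the values of arbitrary functions.** Let `r ≥ 2`, `A`, `B`, `C`, `U`,
`η > 0` and `ε > 0` be given. For all sufficiently large `N`, all `x ≥ N ^ (1 / r + η)` and ALL functions `f` with values in
`[-B N, B N]` on `{1, ..., x}` whose differences of order `r` are all at least `N / (x ^ r (log N) ^ C)`, or all at most the
negative of this number: for all but at most `x / (log N) ^ U` of the `n ≤ x`, ALL the even integers `m > 0` with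
`|m - f(n)| ≤ (log N) ^ C` satisfy `Holds ε A m`: for all `y₁ < y₂ ≤ m` with `y₂ - y₁ ≥ m / log ^ A m`, the number of the
representations `m = p + q` with primes `p`, `q` and `y₁ < p ≤ y₂` agrees with the prediction of Hardy and Littlewood up to
a relative error of at most `ε`, and lies between `(1 - ε) C₂` and `1 + ε` times `(y₂ - y₁) m / (φ(m) log ^ 2 m)` (for
`y₁ = 0`, `y₂ = m` this is the order of magnitude in the problem). -/
theorem result (r A B C U : ℕ) (hr : 2 ≤ r) (η ε : ℝ) (hη : 0 < η) (hε : 0 < ε) : ∃ N₀ : ℕ, ∀ N : ℕ, N₀ ≤ N →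
    ∀ x : ℕ, (N : ℝ) ^ (1 / (r : ℝ) + η) ≤ x → ∀ f : ℕ → ℝ, (∀ n ∈ Icc 1 x, |f n| ≤ B * N) →
    Bent r x f (N / ((x : ℝ) ^ r * Real.log N ^ C)) → (exceptions f ε A C N x : ℝ) ≤ x / Real.log N ^ U := by
  classical
  obtain ⟨N₀, h0⟩ := Pool.Agent.U828.KD.nearEven r hr A B C U 3 ε η hε hη (fun m => Holds ε A m)
    (fun m hm h2 h => holds_of ε A hε m hm h2 h)
  refine ⟨N₀, fun N hN x hx f hf hb => ?_⟩
  unfold exceptions
  apply h0 N hN x hx f hf hb _ (filter_subset _ _)
  intro n hn
  exact (mem_filter.1 hn).2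

end Pool.Agent.Results.MP_629a14_nt.HigherConvexFunctions
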