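import Pool.Agent.U215.Sim.Main

/-!
Simultaneous Goldbach (and difference) representations of `r` integers with one common prime, which is
isolated on the scale of any given multiple of the average gap: for almost all `r`-tuples the number
of representations is at least a constant times the full singular series times `m / (log m) ^ (r + 1)`.
-/

set_option autoImplicit false

open Finset Filter Topology

namespace Pool.Agent.Results.MP_629a14_nt.SimultaneousIsolated

/-- Every prime `q ≠ p` satisfies `|q - p| > R`. -/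
def Isolated (R : ℝ) (p : ℕ) : Prop := ∀ q : ℕ, q.Prime → q ≠ p → R < |(q : ℝ) - p|

/-- The smallest of the integers `n_1, ..., n_r`. -/
noncomputable def smallest {r : ℕ} (n : Fin r → ℕ) : ℕ := ⨅ j, n j

open Classical in
/-- The primes `p < m`, `m` the smallest of the `n_j`, such that all `n_j + σ_j p` are primes and all
primes other than `p` are at a distance of more than `Λ log m` from `p`. -/
noncomputable def representations {r : ℕ} (σ : Fin r → ℤ) (Λ : ℝ) (n : Fin r → ℕ) : Finset ℕ :=
  (range (smallest n)).filter (fun p => p.Prime ∧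
    (∀ j, ∃ q : ℕ, q.Prime ∧ (n j : ℤ) + σ j * p = q) ∧
    Isolated (Λ * Real.log (smallest n)) p)

open Classical in
/-- The number of the residue classes `b` modulo `l` which are `0` or a zero of one of the forms
`n_j + σ_j b` modulo `l`. -/
noncomputable def excluded {r : ℕ} (σ : Fin r → ℤ) (n : Fin r → ℕ) (l : ℕ) : ℕ :=
  ((range l).filter (fun b : ℕ => b = 0 ∨ ∃ j, (l : ℤ) ∣ (n j : ℤ) + σ j * b)).card

/-- The singular series of Hardy and Littlewood of the forms `p, n_1 + σ_1 p, ..., n_r + σ_r p`: the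
limit superior of the products over the primes `l ≤ y`. -/
noncomputable def singularSeries {r : ℕ} (σ : Fin r → ℤ) (n : Fin r → ℕ) : ℝ :=
  limsup (fun y : ℕ => ∏ l ∈ (range (y + 1)).filter Nat.Prime,
    (1 - (excluded σ n l : ℝ) / l) / (1 - 1 / (l : ℝ)) ^ (r + 1)) atTop

open Classical in
/-- The `r`-tuples of integers in `[1, x]` with fewer than `c 𝔖(n) m / (log m) ^ (r + 1)` such primes. -/
noncomputable def exceptions {r : ℕ} (σ : Fin r → ℤ) (Λ c : ℝ) (x : ℕ) : Finset (Fin r → ℕ) :=
  (Fintype.piFinset (fun _ => Icc 1 x)).filter (fun n => ((representations σ Λ n).card : ℝ) <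
    c * (singularSeries σ n * (smallest n / Real.log (smallest n) ^ (r + 1))))

lemma isol_of (R : ℝ) (p : ℕ) (h : Pool.Agent.TH882.IS.Isol R p) : Isolated R p := by
  intro q hq hqp
  by_contra hcon
  push Not at hcon
  rw [abs_le] at hcon
  exact hqp (h q hq (by linarith [hcon.2]) (by linarith [hcon.1]))

/-- For every `r ≥ 1` and `Λ > 0` there is `c > 0` such that for all signs `σ` almost all `r`-tuples
`(n_1, ..., n_r)` of integers in `[1, x]` have at least `c 𝔖(n) m / (log m) ^ (r + 1)` isolated primes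
`p` below their minimum `m` for which all the `n_j + σ_j p` are prime. -/
theorem result (r : ℕ) (hr : 1 ≤ r) (Λ : ℝ) (hΛ : 0 < Λ) : ∃ c : ℝ, 0 < c ∧ ∀ σ : Fin r → ℤ,
    (∀ j, σ j = 1 ∨ σ j = -1) →
    Tendsto (fun x : ℕ => ((exceptions σ Λ c x).card : ℝ) / (x : ℝ) ^ r) atTop (𝓝 0) := by
  classical
  obtain ⟨c, hc, h⟩ := Pool.Agent.U215.Sim.sim hr Λ hΛ
  refine ⟨c, hc, fun σ hσ => ?_⟩
  refine squeeze_zero (fun x => by positivity) (fun x => ?_) (h σ hσ)
  apply div_le_div_of_nonneg_right _ (by positivity)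
  apply Nat.cast_le.2
  apply card_le_card
  intro n hn
  unfold exceptions at hn
  rw [mem_filter] at hn ⊢
  refine ⟨hn.1, lt_of_le_of_lt ?_ hn.2⟩
  apply Nat.cast_le.2
  apply card_le_card
  intro p hp
  unfold Pool.Agent.U215.Sim.Reps at hp
  unfold representations
  rw [mem_filter] at hp ⊢
  refine ⟨hp.1, hp.2.1, fun j => ?_, isol_of _ _ hp.2.2.2⟩
  have h1 := hp.2.2.1 j
  have h2 : 0 ≤ (n j : ℤ) + σ j * p := by
    by_contra hcon
    push Not at hcon
    rw [Int.toNat_of_nonpos hcon.le] at h1
    exact Nat.not_prime_zero h1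
  exact ⟨_, h1, (Int.toNat_of_nonneg h2).symm⟩

end Pool.Agent.Results.MP_629a14_nt.SimultaneousIsolated
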